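import Pool.Agent.E8helper29.FF.Step

/-! The equivalences for the form factor. -/

set_option autoImplicit false

namespace Pool.Agent.E8helper29.FF

open MeasureTheory Set Filter Topology
open Pool.Agent.E8helper72.PC

/-- limit measures exist -/
lemma exists_mu {l : Filter ℝ} (hl : l ≤ atTop) (U : Ultrafilter ℝ) (hU : (U : Filter ℝ) ≤ l) :
    ∃ μ p, LimM (U : Filter ℝ) SS wn xn μ ∧ LimData μ p := by
  obtain ⟨C, hC⟩ := fam
  obtain ⟨μ, hμ⟩ := exists_limM U SS wn xn C ((hU.trans hl) hC)
  obtain ⟨p, -, hp⟩ := (isCompact_Icc (a := (0 : ℝ)) (b := 1)).ultrafilter_le_nhds' (U.map offp) (by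
    rw [Ultrafilter.mem_map]
    exact Eventually.of_forall fun T => offp_mem T)
  rw [Ultrafilter.coe_map] at hp
  exact ⟨μ, p, hμ, zlim U (hU.trans hl) μ p hμ hp⟩

lemma hwn {l : Filter ℝ} (hl : l ≤ atTop) : ∀ᶠ T in l, ∀ p ∈ SS T, 0 ≤ wn T p := by
  obtain ⟨C, hC⟩ := fam
  exact hl (hC.mono fun T h => h.1)

/-- the upper bound for the form factor implies the conjecture -/
theorem upper_imp {l : Filter ℝ} (hl : l ≤ atTop)
    (hwin : ∀ a b, 1 / 3 ≤ a → a < b → ∀ ε, 0 < ε → ∀ᶠ T in l, ∫ α in a..b, fk T α ≤
      (∫ α in a..b, min α 1) + ε) (α β : ℝ) (hα : 0 < α) (hαβ : α < β) :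
    Tendsto (fun T => cw (SS T) (wn T) (xn T) α β) l (𝓝 (II α β)) := by
  rw [tendsto_iff_ultrafilter]
  intro U hU
  obtain ⟨μ, p, hμ, hd⟩ := exists_mu hl U hU
  have heq := limit_eq hd fun b r hr hr0 hr3 => by
    have h1 := lim_fk (hU.trans hl) hμ hr
    refine le_of_forall_pos_le_add fun ε hε => ?_
    exact le_of_tendsto h1 (hU (up_of_windows hl hwin hr hr0 hr3 ε hε))
  exact hμ.window_tendsto (hU (hwn hl)) heq hα hαβ

/-- the conjecture determines the limit measures -/
theorem mu_of_pcc {l : Filter ℝ}
    (h : ∀ α β : ℝ, 0 < α → α < β → Tendsto (fun T => cw (SS T) (wn T) (xn T) α β) l (𝓝 (II α β)))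
    (hl : l ≤ atTop) (U : Ultrafilter ℝ) (hU : (U : Filter ℝ) ≤ l) {μ : Measure ℝ} {p : ℝ}
    (hμ : LimM (U : Filter ℝ) SS wn xn μ) (hd : LimData μ p) :
    2 * μ.real {0} = 1 ∧ μ.restrict (Ioi 0) = lam.restrict (Ioi 0) := by
  have h1 := hd.eq_of_near fun y hy => by
    apply hμ.low_near (hU (hwn hl)) _ hy
    intro β hβ ε hε
    set α : ℝ := min (ε / 2) (β / 2) with hα
    have hα0 : 0 < α := lt_min (by linarith) (by linarith)
    have hα1 : α ≤ ε / 2 := min_le_left _ _
    have hα2 : α ≤ β / 2 := min_le_right _ _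
    refine ⟨α, hα0, by linarith, ?_⟩
    have h2 := (h α β hα0 (by linarith)).eventually
      (lt_mem_nhds (show II α β - ε / 2 < II α β by linarith))
    filter_upwards [hU h2] with i hi
    have h3 := II_add 0 α β
    have h4 := II_le hα0.le
    linarith
  exact ⟨by linarith [h1.2.1], h1.2.2⟩

/-- the conjecture implies the formula for the form factor -/
theorem imp_form {l : Filter ℝ} (hl : l ≤ atTop)
    (h : ∀ α β : ℝ, 0 < α → α < β → Tendsto (fun T => cw (SS T) (wn T) (xn T) α β) l (𝓝 (II α β)))
    (a b : ℝ) (ha : 0 < a) (hab : a < b) :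
    Tendsto (fun T => ∫ α in a..b, fk T α) l (𝓝 (∫ α in a..b, min α 1)) := by
  -- the limits for the test functions
  have hlim : ∀ (c : ℝ) (r : ℝ → ℝ), TF c r →
      Tendsto (fun T => ∫ α, fk T α * r α) l (𝓝 (MM r)) := by
    intro c r hr
    rw [tendsto_iff_ultrafilter]
    intro U hU
    obtain ⟨μ, p, hμ, hd⟩ := exists_mu hl U hU
    obtain ⟨h1, h2⟩ := mu_of_pcc h hl U hU hμ hd
    have := hμ.lf
    have h3 := lim_fk (hU.trans hl) hμ hr
    have h4 : 2 * ∫ u, bl r u ∂μ = MM r := by
      rw [split_zero μ hμ.neg (hd.int _ _ hr), h2]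
      unfold MM
      have h5 : 2 * (μ.real {0} * bl r 0) = bl r 0 := by
        rw [← mul_assoc, h1, one_mul]
      linarith
    rw [h4] at h3
    exact h3
  have hwt : ∫ α in a..b, min α 1 = ∫ α in a..b, wt α := by
    refine intervalIntegral.integral_congr fun α hα => ?_
    rw [uIcc_of_le hab.le] at hα
    unfold wt
    rw [abs_of_nonneg (by linarith [hα.1])]
  rw [hwt]
  have hwi : ∀ x y : ℝ, IntervalIntegrable wt volume x y := fun x y => wt_cont.intervalIntegrable _ _
  have hwle : ∀ {x y : ℝ}, x ≤ y → ∫ α in x..y, wt α ≤ y - x := by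
    intro x y hxy
    have h1 := intervalIntegral.integral_mono_on hxy (hwi x y)
      (intervalIntegrable_const : IntervalIntegrable (fun _ => (1 : ℝ)) volume x y)
      fun α _ => wt_le_one α
    simpa using h1
  -- comparison of integrals over the line and over intervals
  have hset : ∀ (c : ℝ → ℝ) (r : ℝ → ℝ) (x y : ℝ), x ≤ y → (∀ α, (α ≤ x ∨ y ≤ α) → r α = 0) →
      ∫ α, c α * r α = ∫ α in x..y, c α * r α := by
    intro c r x y hxy hr
    symm
    apply intervalIntegral.integral_eq_integral_of_support_subset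
    intro α hα
    by_contra h
    apply hα
    show c α * r α = 0
    rw [hr α (by
      by_contra hcon
      push Not at hcon
      exact h ⟨hcon.1, hcon.2.le⟩), mul_zero]
  rw [tendsto_order]
  constructor
  · -- lower bound
    intro v hv
    set η := min ((b - a) / 4) (((∫ α in a..b, wt α) - v) / 4) with hη
    have hη0 : 0 < η := lt_min (by linarith) (by linarith)
    have hη1 : η ≤ (b - a) / 4 := min_le_left _ _
    have hη2 : η ≤ ((∫ α in a..b, wt α) - v) / 4 := min_le_right _ _
    obtain ⟨r, hr, hr0, hr1, hrone, hrz⟩ := exists_bump (a := a + η) (b := b - η) (η := η)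
      (by linarith) hη0
    rw [add_sub_cancel_right, sub_add_cancel] at hrz
    have h1 : MM r = ∫ α in a..b, wt α * r α := by
      rw [MM_gen hr, hrz 0 (Or.inl ha.le), zero_add]
      exact hset _ _ _ _ hab.le hrz
    have h2 : (∫ α in a..b, wt α) - 2 * η ≤ MM r := by
      rw [h1]
      have e1 : (∫ α in a..(a + η), wt α) + ∫ α in (a + η)..(b - η), wt α =
          ∫ α in a..(b - η), wt α := intervalIntegral.integral_add_adjacent_intervals (hwi _ _) (hwi _ _)
      have e2 : (∫ α in a..(b - η), wt α) + ∫ α in (b - η)..b, wt α = ∫ α in a..b, wt α :=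
        intervalIntegral.integral_add_adjacent_intervals (hwi _ _) (hwi _ _)
      have e3 := hwle (show a ≤ a + η by linarith)
      have e4 := hwle (show b - η ≤ b by linarith)
      have hwr : ∀ x y : ℝ, IntervalIntegrable (fun α => wt α * r α) volume x y :=
        fun x y => (wt_cont.mul hr.cont).intervalIntegrable _ _
      have e5 : (∫ α in a..(a + η), wt α * r α) + ∫ α in (a + η)..(b - η), wt α * r α =
          ∫ α in a..(b - η), wt α * r α :=
        intervalIntegral.integral_add_adjacent_intervals (hwr _ _) (hwr _ _)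
      have e6 : (∫ α in a..(b - η), wt α * r α) + ∫ α in (b - η)..b, wt α * r α =
          ∫ α in a..b, wt α * r α :=
        intervalIntegral.integral_add_adjacent_intervals (hwr _ _) (hwr _ _)
      have e7 : 0 ≤ ∫ α in a..(a + η), wt α * r α :=
        intervalIntegral.integral_nonneg (by linarith) fun α _ => mul_nonneg (wt_nonneg α) (hr0 α)
      have e8 : 0 ≤ ∫ α in (b - η)..b, wt α * r α :=
        intervalIntegral.integral_nonneg (by linarith) fun α _ => mul_nonneg (wt_nonneg α) (hr0 α)
      have e9 : ∫ α in (a + η)..(b - η), wt α * r α = ∫ α in (a + η)..(b - η), wt α := by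
        refine intervalIntegral.integral_congr fun α hα => ?_
        rw [uIcc_of_le (by linarith)] at hα
        show wt α * r α = wt α
        rw [hrone α hα.1 hα.2, mul_one]
      linarith
    have h3 := (hlim _ r hr).eventually (lt_mem_nhds (show v < MM r by linarith))
    filter_upwards [h3, hl (eventually_ge_atTop 10)] with T hT hT10
    refine hT.trans_le ?_
    rw [hset _ _ _ _ hab.le hrz]
    refine intervalIntegral.integral_mono_on hab.le
      (((fk_cont T).mul hr.cont).intervalIntegrable _ _) ((fk_cont T).intervalIntegrable _ _)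
      fun α _ => ?_
    exact mul_le_of_le_one_right (fk_nonneg hT10 α) (hr1 α)
  · -- upper bound
    intro v hv
    set η := min (a / 2) ((v - (∫ α in a..b, wt α)) / 4) with hη
    have hη0 : 0 < η := lt_min (by linarith) (by linarith)
    have hη1 : η ≤ a / 2 := min_le_left _ _
    have hη2 : η ≤ (v - (∫ α in a..b, wt α)) / 4 := min_le_right _ _
    obtain ⟨r, hr, hr0, hr1, hrone, hrz⟩ := exists_bump (a := a) (b := b) (η := η) hab hη0
    have hab' : a - η ≤ b + η := by linarith
    have h1 : MM r = ∫ α in (a - η)..(b + η), wt α * r α := by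
      rw [MM_gen hr, hrz 0 (Or.inl (by linarith)), zero_add]
      exact hset _ _ _ _ hab' hrz
    have h2 : MM r ≤ (∫ α in a..b, wt α) + 2 * η := by
      rw [h1]
      have e0 : ∫ α in (a - η)..(b + η), wt α * r α ≤ ∫ α in (a - η)..(b + η), wt α := by
        refine intervalIntegral.integral_mono_on hab'
          ((wt_cont.mul hr.cont).intervalIntegrable _ _) (hwi _ _) fun α _ => ?_
        exact mul_le_of_le_one_right (wt_nonneg α) (hr1 α)
      have e1 : (∫ α in (a - η)..a, wt α) + ∫ α in a..b, wt α = ∫ α in (a - η)..b, wt α :=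
        intervalIntegral.integral_add_adjacent_intervals (hwi _ _) (hwi _ _)
      have e2 : (∫ α in (a - η)..b, wt α) + ∫ α in b..(b + η), wt α =
          ∫ α in (a - η)..(b + η), wt α :=
        intervalIntegral.integral_add_adjacent_intervals (hwi _ _) (hwi _ _)
      have e3 := hwle (show a - η ≤ a by linarith)
      have e4 := hwle (show b ≤ b + η by linarith)
      linarith
    have h3 := (hlim _ r hr).eventually (gt_mem_nhds (show MM r < v by linarith))
    filter_upwards [h3, hl (eventually_ge_atTop 10)] with T hT hT10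
    refine lt_of_le_of_lt ?_ hT
    rw [hset _ _ _ _ hab' hrz]
    have hfr : ∀ x y : ℝ, IntervalIntegrable (fun α => fk T α * r α) volume x y :=
      fun x y => ((fk_cont T).mul hr.cont).intervalIntegrable _ _
    have e5 : (∫ α in (a - η)..a, fk T α * r α) + ∫ α in a..b, fk T α * r α =
        ∫ α in (a - η)..b, fk T α * r α :=
      intervalIntegral.integral_add_adjacent_intervals (hfr _ _) (hfr _ _)
    have e6 : (∫ α in (a - η)..b, fk T α * r α) + ∫ α in b..(b + η), fk T α * r α =
        ∫ α in (a - η)..(b + η), fk T α * r α :=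
      intervalIntegral.integral_add_adjacent_intervals (hfr _ _) (hfr _ _)
    have e7 : 0 ≤ ∫ α in (a - η)..a, fk T α * r α :=
      intervalIntegral.integral_nonneg (by linarith) fun α _ =>
        mul_nonneg (fk_nonneg hT10 α) (hr0 α)
    have e8 : 0 ≤ ∫ α in b..(b + η), fk T α * r α :=
      intervalIntegral.integral_nonneg (by linarith) fun α _ =>
        mul_nonneg (fk_nonneg hT10 α) (hr0 α)
    have e9 : ∫ α in a..b, fk T α * r α = ∫ α in a..b, fk T α := by
      refine intervalIntegral.integral_congr fun α hα => ?_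
      rw [uIcc_of_le hab.le] at hα
      show fk T α * r α = fk T α
      rw [hrone α hα.1 hα.2, mul_one]
    linarith

end Pool.Agent.E8helper29.FF
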