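import Pool.Agent.E8helper29.FF.Main1

/-! Rigidity from a one sided bound of the form factor. -/

set_option autoImplicit false

namespace Pool.Agent.E8helper29.FF

open MeasureTheory Set Filter Topology
open Pool.Agent.E8helper72.PC
open scoped Convolution

set_option maxHeartbeats 2000000 in
/-- a nonnegative smooth function with compact support and nonnegative transform -/
theorem exists_kernel2 : ∃ χ : ℝ → ℝ, TF 1 χ ∧ (∀ α, 0 ≤ χ α) ∧ 0 < χ 0 ∧ (∀ u, 0 ≤ bl χ u) ∧
    0 < bl χ 0 := by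
  let b : ContDiffBump (0 : ℝ) := ⟨1 / 4, 1 / 2, by norm_num, by norm_num⟩
  set ψ : ℝ → ℝ := fun x => b x with hψ
  have hb0 : ∀ x, 1 / 2 ≤ |x| → ψ x = 0 := by
    intro x hx
    apply b.zero_of_le_dist
    simpa [Real.dist_eq, b] using hx
  have hψc : Continuous ψ := b.continuous
  have hψcd : ContDiff ℝ (⊤ : ℕ∞) ψ := b.contDiff
  have hψs : HasCompactSupport ψ := b.hasCompactSupport
  have hψi : Integrable ψ := hψc.integrable_of_hasCompactSupport hψs
  have hev : ∀ x, ψ (-x) = ψ x := fun x => b.neg x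
  have hnn : ∀ x, 0 ≤ ψ x := fun x => b.nonneg
  have hψTF : TF (1 / 2) ψ := ⟨hψcd, fun α hα => hb0 α hα.le⟩
  set χ : ℝ → ℝ := ψ ⋆[ContinuousLinearMap.mul ℝ ℝ] ψ with hχ
  have hχd : ∀ α, χ α = ∫ t, ψ t * ψ (α - t) := fun α => rfl
  have hχcd : ContDiff ℝ (⊤ : ℕ∞) χ :=
    hψs.contDiff_convolution_left _ hψcd hψi.locallyIntegrable
  have hχs : ∀ α, 1 < |α| → χ α = 0 := by
    intro α hα
    rw [hχd]
    have : ∀ t, ψ t * ψ (α - t) = 0 := by
      intro t
      by_cases h : 1 / 2 ≤ |t|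
      · rw [hb0 t h, zero_mul]
      · rw [hb0 (α - t), mul_zero]
        push Not at h
        have := abs_sub_abs_le_abs_sub α t
        linarith
    simp [this]
  have hχTF : TF 1 χ := ⟨hχcd, hχs⟩
  have hχev : ∀ α, χ (-α) = χ α := by
    intro α
    rw [hχd, hχd, ← integral_neg_eq_self]
    congr 1
    funext t
    rw [hev, show -α - -t = -(α - t) by ring, hev]
  have hsq : ∀ u, bl χ u = bl ψ u ^ 2 := by
    intro u
    have h1 := bl_fourier hχTF hχev u
    have h2 := bl_fourier hψTF hev u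
    have e : (fun α : ℝ => (χ α : ℂ)) = (fun t : ℝ => (ψ t : ℂ)) ⋆[ContinuousLinearMap.mul ℂ ℂ]
        (fun t : ℝ => (ψ t : ℂ)) := by
      funext α
      rw [hχd, convolution_def, ← integral_complex_ofReal]
      congr 1
      funext t
      simp
    have hci : Integrable (fun t : ℝ => (ψ t : ℂ)) := hψi.ofReal
    have h5 := Real.fourier_mul_convolution_eq (R := ℂ) (f₁ := fun t : ℝ => (ψ t : ℂ))
      (f₂ := fun t : ℝ => (ψ t : ℂ)) hci hci u
    have h3 : ((bl ψ u * bl ψ u : ℝ) : ℂ) = (bl χ u : ℂ) := by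
      rw [← h1, e, h5, h2]; push_cast; rfl
    have h4 := Complex.ofReal_injective h3
    rw [← h4]
    ring
  have hpos : 0 < bl ψ 0 := by
    have : bl ψ 0 = ∫ x, ψ x := by
      unfold bl
      simp
    rw [this]
    exact b.integral_pos
  have hψ0 : ψ 0 = 1 := b.one_of_mem_closedBall (by simp [b])
  refine ⟨χ, hχTF, fun α => ?_, ?_, fun u => ?_, ?_⟩
  · rw [hχd]
    exact integral_nonneg fun t => mul_nonneg (hnn _) (hnn _)
  · rw [hχd]
    have h1 : ∀ t, ψ t * ψ (0 - t) = ψ t ^ 2 := fun t => by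
      rw [zero_sub, hev]
      ring
    simp_rw [h1]
    have h2 : Continuous fun t : ℝ => ψ t ^ 2 := hψc.pow 2
    have h3 : Integrable fun t : ℝ => ψ t ^ 2 := by
      have : (fun t : ℝ => ψ t ^ 2) = fun t => ψ t * ψ t := by
        funext t
        ring
      rw [this]
      exact hψTF.int_mul hψc
    have h4 : 0 ≤ fun t : ℝ => ψ t ^ 2 := fun t => sq_nonneg _
    have h5 : HasCompactSupport fun t : ℝ => ψ t ^ 2 := by
      apply HasCompactSupport.intro (isCompact_Icc (a := -1 / 2) (b := 1 / 2))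
      intro t ht
      show ψ t ^ 2 = 0
      rw [hb0 t (by
        by_contra hcon
        push Not at hcon
        obtain ⟨h6, h7⟩ := abs_lt.1 hcon
        exact ht ⟨by linarith, by linarith⟩)]
      norm_num
    have h6 := h2.integral_pos_of_hasCompactSupport_nonneg_nonzero (μ := volume) (x := 0) h5 h4 (by
      show ψ 0 ^ 2 ≠ 0
      rw [hψ0]
      norm_num)
    exact h6
  · rw [hsq]
    exact sq_nonneg _
  · rw [hsq]
    positivity

/-- a smooth cutoff -/
lemma exists_cut2 : ∃ g : ℝ → ℝ, TF (1 / 2) g ∧ (∀ α, 0 ≤ g α) ∧ (∀ α, g α ≤ 1) ∧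
    ∀ α, |α| ≤ 1 / 3 → g α = 1 := by
  let b : ContDiffBump (0 : ℝ) := ⟨1 / 3, 1 / 2, by norm_num, by norm_num⟩
  refine ⟨fun x => b x, ⟨b.contDiff, fun x hx => ?_⟩, fun x => b.nonneg, fun x => b.le_one,
    fun x hx => ?_⟩
  · apply b.zero_of_le_dist
    simpa [Real.dist_eq, b] using hx.le
  · apply b.one_of_mem_closedBall
    simpa [b] using hx

/-- the dilated kernels have small integrals against the predicted measure -/
lemma small_scale {χ : ℝ → ℝ} (hχ : TF 1 χ) : ∃ C : ℝ, 0 < C ∧ ∀ e : ℝ, 0 < e →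
    |∫ u in Ioi 0, bl (fun α => χ (α / e)) u ∂lam| ≤ C / e ^ 2 := by
  obtain ⟨D, hD, hdec⟩ := hχ.decay 2
  have hpi := Real.pi_pos
  refine ⟨Real.pi ^ 2 * D * Real.pi, by positivity, fun e he => ?_⟩
  rw [lam_integral _ measurableSet_Ioi]
  have hb : ∀ u, |FF u * bl (fun α => χ (α / e)) u| ≤
      Real.pi ^ 2 * D / e * (1 + (u / e⁻¹) ^ 2)⁻¹ := by
    intro u
    rw [bl_scale χ he, abs_mul, abs_mul, abs_of_nonneg (FF_nonneg u), abs_of_pos he]
    have h1 := FF_small u
    have h2 := hdec (e * u)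
    have hv : 0 < 1 + (e * u) ^ 2 := by positivity
    have h3 : |bl χ (e * u)| ≤ D / (1 + (e * u) ^ 2) ^ 2 := by
      rw [le_div_iff₀ (by positivity)]
      exact h2
    have h4 : u / e⁻¹ = e * u := by
      rw [div_inv_eq_mul, mul_comm]
    rw [h4]
    calc FF u * (e * |bl χ (e * u)|) ≤ (Real.pi * u) ^ 2 * (e * (D / (1 + (e * u) ^ 2) ^ 2)) := by
          have := FF_nonneg u
          gcongr
      _ = Real.pi ^ 2 * D / e * ((e * u) ^ 2 / (1 + (e * u) ^ 2) ^ 2) := by
          field_simp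
      _ ≤ Real.pi ^ 2 * D / e * ((1 + (e * u) ^ 2) / (1 + (e * u) ^ 2) ^ 2) := by
          gcongr
          linarith
      _ = _ := by
          congr 1
          field_simp
  have hint : Integrable fun u : ℝ => Real.pi ^ 2 * D / e * (1 + (u / e⁻¹) ^ 2)⁻¹ :=
    (integrable_inv_one_add_sq.comp_div (inv_ne_zero he.ne')).const_mul _
  calc |∫ u in Ioi 0, FF u * bl (fun α => χ (α / e)) u| ≤
        ∫ u in Ioi 0, |FF u * bl (fun α => χ (α / e)) u| := abs_integral_le_integral_abs
    _ ≤ ∫ u in Ioi 0, Real.pi ^ 2 * D / e * (1 + (u / e⁻¹) ^ 2)⁻¹ := by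
        apply integral_mono_of_nonneg (Eventually.of_forall fun u => abs_nonneg _) hint.integrableOn
        exact Eventually.of_forall hb
    _ ≤ ∫ u, Real.pi ^ 2 * D / e * (1 + (u / e⁻¹) ^ 2)⁻¹ := by
        apply setIntegral_le_integral hint
        exact Eventually.of_forall fun u => by positivity
    _ = Real.pi ^ 2 * D * Real.pi / e ^ 2 := by
        rw [integral_const_mul, Measure.integral_comp_div (fun u : ℝ => (1 + u ^ 2)⁻¹) e⁻¹,
          integral_univ_inv_one_add_sq, smul_eq_mul, abs_of_pos (inv_pos.2 he)]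
        field_simp

set_option maxHeartbeats 2000000 in
/-- **rigidity** -/
theorem up_rigid {μ : Measure ℝ} {w : ℝ} (h : LimData μ w)
    (hup : ∀ b r, TF b r → (∀ α, 0 ≤ r α) → (∀ α, |α| ≤ 1 / 3 → r α = 0) →
      2 * ∫ u, bl r u ∂μ ≤ MM r) :
    w = 0 ∧ 2 * μ.real {0} = 1 ∧ ∀ b r, TF b r → 2 * ∫ u, bl r u ∂μ = MM r := by
  have := h.lf
  obtain ⟨χ, hχ, hχ0, hχp, hχb, hχb0⟩ := exists_kernel2
  obtain ⟨g, hg, hg0, hg1, hgone⟩ := exists_cut2
  obtain ⟨C, hC⟩ := h.approx
  obtain ⟨C1, hC1, hsmall⟩ := small_scale hχ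
  obtain ⟨S, hS, hSb⟩ := hχ.bdd
  -- linearity
  have hadd : ∀ {b : ℝ} {r s : ℝ → ℝ}, TF b r → TF b s →
      2 * ∫ u, bl (fun α => r α + s α) u ∂μ = 2 * (∫ u, bl r u ∂μ) + 2 * ∫ u, bl s u ∂μ := by
    intro b r s hr hs
    simp_rw [bl_add hr hs]
    rw [integral_add (h.int _ _ hr) (h.int _ _ hs)]
    ring
  have hmul : ∀ (c : ℝ) (r : ℝ → ℝ),
      2 * ∫ u, bl (fun α => c * r α) u ∂μ = c * (2 * ∫ u, bl r u ∂μ) := by
    intro c r
    simp_rw [bl_const_mul]
    rw [integral_const_mul]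
    ring
  -- the decomposition
  have hdec : ∀ {b : ℝ} {r : ℝ → ℝ}, 1 / 2 ≤ b → TF b r → TF (1 / 2) (fun α => r α * g α) ∧
      TF b (fun α => (1 - g α) * r α) ∧
      2 * ∫ u, bl r u ∂μ = 2 * (∫ u, bl (fun α => r α * g α) u ∂μ) +
        2 * ∫ u, bl (fun α => (1 - g α) * r α) u ∂μ ∧
      MM r = MM (fun α => r α * g α) + MM (fun α => (1 - g α) * r α) := by
    intro b r hb hr
    have h1 : TF (1 / 2) (fun α => r α * g α) := hg.mul_left hr.cd
    have h2 : TF b (fun α => (1 - g α) * r α) := hr.mul_left (contDiff_const.sub hg.cd)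
    have e : (fun α => r α * g α + (1 - g α) * r α) = r := by
      funext α
      ring
    refine ⟨h1, h2, ?_, ?_⟩
    · have := hadd (h1.mono hb) h2
      rwa [e] at this
    · have := MM_add (h1.mono hb) h2
      rwa [e] at this
  have hfar : ∀ {b : ℝ} {r : ℝ → ℝ}, 1 / 2 ≤ b → TF b r → (∀ α, 0 ≤ r α) →
      2 * ∫ u, bl (fun α => (1 - g α) * r α) u ∂μ ≤ MM (fun α => (1 - g α) * r α) := by
    intro b r hb hr hr0
    refine hup b _ (hdec hb hr).2.1 (fun α => mul_nonneg (by linarith [hg1 α]) (hr0 α)) fun α hα => ?_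
    rw [hgone α hα]
    ring
  -- the dilated kernels
  have hTFe : ∀ {e : ℝ}, 0 < e → TF e (fun α => χ (α / e)) := by
    intro e he
    have := hχ.scale he
    rwa [mul_one] at this
  have hMMe : ∀ {e : ℝ}, 0 < e → MM (fun α => χ (α / e)) ≤ e * bl χ 0 + 2 * (C1 / e ^ 2) := by
    intro e he
    have h1 := (abs_le.1 (hsmall e he)).2
    unfold MM
    rw [bl_scale χ he, mul_zero]
    linarith
  have hlow : ∀ {e : ℝ}, 0 < e → 2 * μ.real {0} * (e * bl χ 0) ≤
      2 * ∫ u, bl (fun α => χ (α / e)) u ∂μ := by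
    intro e he
    rw [split_zero μ h.neg (h.int _ _ (hTFe he)), bl_scale χ he, mul_zero]
    have h1 : 0 ≤ ∫ u in Ioi 0, bl (fun α => χ (α / e)) u ∂μ := integral_nonneg fun u => by
      show 0 ≤ bl (fun α => χ (α / e)) u
      rw [bl_scale χ he]
      exact mul_nonneg he.le (hχb _)
    linarith
  -- the proportion of zeros off the line
  have hdiag := h.diag
  have hw := h.nonneg
  have hD : 2 * μ.real {0} ≤ 1 := by
    have hin : ∀ e : ℝ, 1 ≤ e → (2 * μ.real {0} - 1) * (e * bl χ 0) ≤ |C| * S + 2 * C1 := by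
      intro e he
      have he0 : 0 < e := by linarith
      obtain ⟨h1, h2, h3, h4⟩ := hdec (show 1 / 2 ≤ e by linarith) (hTFe he0)
      have h5 := hfar (show 1 / 2 ≤ e by linarith) (hTFe he0) (fun α => hχ0 _)
      have h6 := hC (1 / 2) (by norm_num) le_rfl _ h1 S (fun α => by
        rw [abs_mul]
        have h7 := hSb (α / e)
        have h8 : |g α| ≤ 1 := abs_le.2 ⟨by linarith [hg0 α], hg1 α⟩
        calc |χ (α / e)| * |g α| ≤ S * 1 := by gcongr
          _ = S := mul_one S)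
      have h7 := (abs_le.1 h6).2
      have h8 : C * S * (1 / 2) ^ 3 ≤ |C| * S := by
        have h9 : C * S ≤ |C| * S := mul_le_mul_of_nonneg_right (le_abs_self C) hS.le
        have h10 : 0 ≤ |C| * S := by positivity
        nlinarith
      have h9 := hMMe he0
      have h10 := hlow he0
      have h11 : C1 / e ^ 2 ≤ C1 := div_le_self hC1.le (one_le_pow₀ he)
      have h12 : bl (fun α => χ (α / e) * g α) 0 +
          2 * ∫ u in Ioi 0, bl (fun α => χ (α / e) * g α) u ∂lam =
          MM (fun α => χ (α / e) * g α) := rfl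
      rw [h12] at h7
      linarith
    by_contra hcon
    push Not at hcon
    have hpos : 0 < (2 * μ.real {0} - 1) * bl χ 0 := mul_pos (by linarith) hχb0
    set B := |C| * S + 2 * C1 with hB
    have hB0 : 0 ≤ B := by positivity
    have h1 := hin (B / ((2 * μ.real {0} - 1) * bl χ 0) + 1) (by
      have : 0 ≤ B / ((2 * μ.real {0} - 1) * bl χ 0) := by positivity
      linarith)
    have h2 : (2 * μ.real {0} - 1) * ((B / ((2 * μ.real {0} - 1) * bl χ 0) + 1) * bl χ 0) =
        B + (2 * μ.real {0} - 1) * bl χ 0 := by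
      have h3 : (2 * μ.real {0} - 1) ≠ 0 := by linarith
      field_simp
    rw [h2] at h1
    linarith
  have hw0 : w = 0 := by linarith
  have hD1 : 2 * μ.real {0} = 1 := by linarith
  -- the upper bound for all nonnegative functions
  have hex : ∀ r, TF (1 / 2) r → 2 * ∫ u, bl r u ∂μ = MM r := fun r hr => h.exact hw0 r hr
  have hup2 : ∀ {b : ℝ} {r : ℝ → ℝ}, 1 / 2 ≤ b → TF b r → (∀ α, 0 ≤ r α) →
      2 * ∫ u, bl r u ∂μ ≤ MM r := by
    intro b r hb hr hr0
    obtain ⟨h1, h2, h3, h4⟩ := hdec hb hr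
    have h5 := hfar hb hr hr0
    rw [h3, h4, hex _ h1]
    linarith
  -- positivity of the kernel near the origin
  obtain ⟨η, hη, hχη⟩ : ∃ η : ℝ, 0 < η ∧ ∀ α, |α| ≤ η → χ 0 / 2 ≤ χ α := by
    have h1 : ∀ᶠ α in 𝓝 (0 : ℝ), χ 0 / 2 < χ α :=
      hχ.cont.continuousAt.eventually (lt_mem_nhds (by linarith))
    obtain ⟨δ, hδ, h2⟩ := Metric.eventually_nhds_iff.1 h1
    refine ⟨δ / 2, by positivity, fun α hα => (h2 ?_).le⟩
    rw [Real.dist_eq, sub_zero]
    linarith
  -- the lower bound for the nonnegative functions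
  have heq0 : ∀ {b : ℝ} {r : ℝ → ℝ}, 1 / 2 ≤ b → TF b r → (∀ α, 0 ≤ r α) →
      2 * ∫ u, bl r u ∂μ = MM r := by
    intro b r hb hr hr0
    refine le_antisymm (hup2 hb hr hr0) ?_
    obtain ⟨R, hR, hRb⟩ := hr.bdd
    set c := χ 0 / (2 * R) with hc
    have hc0 : 0 < c := by positivity
    have hin : ∀ e : ℝ, max b (b / η) ≤ e → c * (MM r - 2 * ∫ u, bl r u ∂μ) ≤ 2 * (C1 / e ^ 2) := by
      intro e he
      have hbe : b ≤ e := (le_max_left _ _).trans he
      have he0 : 0 < e := by linarith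
      have hbe2 : b / η ≤ e := (le_max_right _ _).trans he
      have hTF2 : TF e (fun α => χ (α / e) - c * r α) :=
        (hTFe he0).sub ((hr.mono hbe).const_mul c)
      have hnn : ∀ α, 0 ≤ χ (α / e) - c * r α := by
        intro α
        rcases le_or_gt |α| b with h1 | h1
        · have h2 : |α / e| ≤ η := by
            rw [abs_div, abs_of_pos he0, div_le_iff₀ he0]
            rw [div_le_iff₀ hη] at hbe2
            linarith
          have h3 := hχη _ h2
          have h4 : c * r α ≤ c * R := mul_le_mul_of_nonneg_left ((le_abs_self _).trans (hRb α)) hc0.le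
          have h5 : c * R = χ 0 / 2 := by
            rw [hc]
            field_simp
          linarith
        · rw [hr.supp α h1, mul_zero, sub_zero]
          exact hχ0 _
      have h1 := hup2 (show 1 / 2 ≤ e by linarith) hTF2 hnn
      have h2 := hadd hTF2 ((hr.mono hbe).const_mul c)
      have h3 := MM_add hTF2 ((hr.mono hbe).const_mul c)
      have e1 : (fun α => χ (α / e) - c * r α + c * r α) = fun α => χ (α / e) := by
        funext α
        ring
      rw [e1] at h2 h3
      rw [hmul] at h2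
      rw [MM_const_mul hr c] at h3
      have h4 := hMMe he0
      have h5 := hlow he0
      rw [hD1, one_mul] at h5
      linarith
    by_contra hcon
    push Not at hcon
    have hpos : 0 < c * (MM r - 2 * ∫ u, bl r u ∂μ) := mul_pos hc0 (by linarith)
    have hlim : Tendsto (fun e : ℝ => 2 * (C1 / e ^ 2)) atTop (𝓝 (2 * 0)) :=
      (Tendsto.const_div_atTop (tendsto_pow_atTop (by norm_num)) C1).const_mul 2
    rw [mul_zero] at hlim
    obtain ⟨e, he1, he2⟩ := ((hlim.eventually (gt_mem_nhds hpos)).and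
      (eventually_ge_atTop (max b (b / η)))).exists
    have := hin e he2
    linarith
  refine ⟨hw0, hD1, fun b r hr => ?_⟩
  -- arbitrary functions
  obtain ⟨R, hR, hRb⟩ := hr.bdd
  set b' := max b (1 / 2) with hb'
  have hr' : TF b' r := hr.mono (le_max_left _ _)
  have hb'2 : 1 / 2 ≤ b' := le_max_right _ _
  set e := max b' (b' / η) with he
  have hbe : b' ≤ e := le_max_left _ _
  have he0 : 0 < e := by linarith
  have hbe2 : b' / η ≤ e := le_max_right _ _
  set M := 2 * R / χ 0 with hM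
  have hM0 : 0 < M := by positivity
  have hTF1 : TF e (fun α => M * χ (α / e)) := (hTFe he0).const_mul M
  have hTF2 : TF e (fun α => r α + M * χ (α / e)) := (hr'.mono hbe).add hTF1
  have hnn : ∀ α, 0 ≤ r α + M * χ (α / e) := by
    intro α
    rcases le_or_gt |α| b' with h1 | h1
    · have h2 : |α / e| ≤ η := by
        rw [abs_div, abs_of_pos he0, div_le_iff₀ he0]
        rw [div_le_iff₀ hη] at hbe2
        linarith
      have h3 := hχη _ h2
      have h4 : M * (χ 0 / 2) ≤ M * χ (α / e) := mul_le_mul_of_nonneg_left h3 hM0.le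
      have h5 : M * (χ 0 / 2) = R := by
        rw [hM]
        field_simp
      have h6 := (abs_le.1 (hRb α)).1
      linarith
    · rw [hr'.supp α h1, zero_add]
      exact mul_nonneg hM0.le (hχ0 _)
  have h1 := heq0 (show 1 / 2 ≤ e by linarith) hTF2 hnn
  have h2 := heq0 (show 1 / 2 ≤ e by linarith) hTF1 (fun α => mul_nonneg hM0.le (hχ0 _))
  have h3 := hadd (hr'.mono hbe) hTF1
  have h4 := MM_add (hr'.mono hbe) hTF1
  linarith

end Pool.Agent.E8helper29.FF
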