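import Pool.Agent.E8helper29.FF.Uniq
import Pool.Agent.E8helper72.PC.Conv

/-! The form factor of the ordinates. -/

set_option autoImplicit false

namespace Pool.Agent.E8helper29.FF

open MeasureTheory Set Filter Topology
open Pool.Agent.E8helper72.PC

/-- Montgomery's weight -/
noncomputable def kw (p : ℂ × ℂ) : ℝ := 4 / (4 + (p.1.im - p.2.im) ^ 2)

/-- the form factor -/
noncomputable def fk (T α : ℝ) : ℝ :=
  (∑ p ∈ SS T, ww p * (kw p * Real.cos (α * Real.log T * (p.1.im - p.2.im)))) / XX T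

lemma kw_nonneg (p : ℂ × ℂ) : 0 ≤ kw p := by unfold kw; positivity

lemma kw_le (p : ℂ × ℂ) : kw p ≤ 1 := by
  unfold kw
  rw [div_le_one (by positivity)]
  linarith [sq_nonneg (p.1.im - p.2.im)]

lemma fk_cont (T : ℝ) : Continuous (fk T) := by
  unfold fk
  fun_prop

lemma fk_even (T α : ℝ) : fk T (-α) = fk T α := by
  unfold fk
  congr 1
  refine Finset.sum_congr rfl fun p _ => ?_
  rw [show -α * Real.log T * (p.1.im - p.2.im) = -(α * Real.log T * (p.1.im - p.2.im)) by ring,
    Real.cos_neg]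

/-- the transform of the weight -/
lemma exp_cos (v : ℝ) : IntegrableOn (fun t : ℝ => Real.exp (-2 * t) * Real.cos (v * t)) (Ioi 0) ∧
    ∫ t in Ioi (0 : ℝ), Real.exp (-2 * t) * Real.cos (v * t) = 2 / (4 + v ^ 2) := by
  set a : ℂ := ⟨-2, v⟩ with ha
  have hre : a.re < 0 := by simp [ha]
  have h1 := integrableOn_exp_mul_complex_Ioi hre 0
  have h2 := integral_exp_mul_complex_Ioi hre 0
  have e1 : ∀ t : ℝ, (Complex.exp (a * t)).re = Real.exp (-2 * t) * Real.cos (v * t) := by
    intro t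
    rw [Complex.exp_re]
    simp [ha]
  have h3 : IntegrableOn (fun t : ℝ => (Complex.exp (a * t)).re) (Ioi 0) := h1.re
  have h4 : ∫ t in Ioi (0 : ℝ), (Complex.exp (a * t)).re = (∫ t in Ioi (0 : ℝ), Complex.exp (a * t)).re :=
    integral_re h1
  simp_rw [e1] at h3 h4
  refine ⟨h3, ?_⟩
  rw [h4, h2]
  have hne : (4 + v ^ 2 : ℝ) ≠ 0 := by positivity
  have h5 : -Complex.exp (a * ((0 : ℝ) : ℂ)) / a = (⟨2 / (4 + v ^ 2), v / (4 + v ^ 2)⟩ : ℂ) := by
    have ha0 : a ≠ 0 := by
      intro h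
      rw [h] at hre
      simp at hre
    rw [Complex.ofReal_zero, mul_zero, Complex.exp_zero, div_eq_iff ha0]
    apply Complex.ext
    · simp [ha]
      field_simp
      ring
    · simp [ha]
      field_simp
      ring
  rw [h5]

/-- positivity -/
lemma cos_sum_nonneg (S : Finset ℂ) (y : ℝ) :
    0 ≤ ∑ p ∈ S ×ˢ S, ww p * Real.cos (y * (p.1.im - p.2.im)) := by
  have h1 : ∑ p ∈ S ×ˢ S, ww p * Real.cos (y * (p.1.im - p.2.im)) =
      (∑ s ∈ S, mz s * Real.cos (y * s.im)) ^ 2 + (∑ s ∈ S, mz s * Real.sin (y * s.im)) ^ 2 := by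
    rw [sq, sq, Finset.sum_mul_sum, Finset.sum_mul_sum, ← Finset.sum_add_distrib, Finset.sum_product]
    refine Finset.sum_congr rfl fun s _ => ?_
    rw [← Finset.sum_add_distrib]
    refine Finset.sum_congr rfl fun s' _ => ?_
    rw [mul_sub, Real.cos_sub]
    simp only [ww]
    ring
  rw [h1]
  positivity

lemma fk_nonneg {T : ℝ} (hT : 10 ≤ T) (α : ℝ) : 0 ≤ fk T α := by
  have hX := XX_pos hT
  unfold fk
  apply div_nonneg _ hX.le
  set a := α * Real.log T with ha
  have e1 : ∀ p : ℂ × ℂ, ww p * (kw p * Real.cos (a * (p.1.im - p.2.im))) =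
      ∫ t in Ioi (0 : ℝ), ww p * (Real.exp (-2 * t) *
        (Real.cos ((a + t) * (p.1.im - p.2.im)) + Real.cos ((a - t) * (p.1.im - p.2.im)))) := by
    intro p
    rw [integral_const_mul]
    congr 1
    have h1 := (exp_cos (p.1.im - p.2.im)).2
    have e2 : ∀ t : ℝ, Real.exp (-2 * t) *
        (Real.cos ((a + t) * (p.1.im - p.2.im)) + Real.cos ((a - t) * (p.1.im - p.2.im))) =
        (2 * Real.cos (a * (p.1.im - p.2.im))) * (Real.exp (-2 * t) *
          Real.cos ((p.1.im - p.2.im) * t)) := by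
      intro t
      rw [show (a + t) * (p.1.im - p.2.im) = a * (p.1.im - p.2.im) + (p.1.im - p.2.im) * t by ring,
        show (a - t) * (p.1.im - p.2.im) = a * (p.1.im - p.2.im) - (p.1.im - p.2.im) * t by ring,
        Real.cos_add, Real.cos_sub]
      ring
    simp_rw [e2]
    rw [integral_const_mul, h1]
    unfold kw
    ring
  have hi : ∀ p ∈ SS T, Integrable (fun t : ℝ => ww p * (Real.exp (-2 * t) *
      (Real.cos ((a + t) * (p.1.im - p.2.im)) + Real.cos ((a - t) * (p.1.im - p.2.im)))))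
      (volume.restrict (Ioi 0)) := by
    intro p _
    apply Integrable.const_mul
    have h1 := (exp_cos (p.1.im - p.2.im)).1
    refine (h1.const_mul (2 * Real.cos (a * (p.1.im - p.2.im)))).congr
      (Eventually.of_forall fun t => ?_)
    show 2 * Real.cos (a * (p.1.im - p.2.im)) * (Real.exp (-2 * t) *
      Real.cos ((p.1.im - p.2.im) * t)) = Real.exp (-2 * t) *
        (Real.cos ((a + t) * (p.1.im - p.2.im)) + Real.cos ((a - t) * (p.1.im - p.2.im)))
    rw [show (a + t) * (p.1.im - p.2.im) = a * (p.1.im - p.2.im) + (p.1.im - p.2.im) * t by ring,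
      show (a - t) * (p.1.im - p.2.im) = a * (p.1.im - p.2.im) - (p.1.im - p.2.im) * t by ring,
      Real.cos_add, Real.cos_sub]
    ring
  rw [Finset.sum_congr rfl fun p _ => e1 p, ← integral_finsetSum _ hi]
  refine integral_nonneg fun t => ?_
  have e3 : ∑ p ∈ SS T, ww p * (Real.exp (-2 * t) *
      (Real.cos ((a + t) * (p.1.im - p.2.im)) + Real.cos ((a - t) * (p.1.im - p.2.im)))) =
      Real.exp (-2 * t) * ((∑ p ∈ SS T, ww p * Real.cos ((a + t) * (p.1.im - p.2.im))) +
        ∑ p ∈ SS T, ww p * Real.cos ((a - t) * (p.1.im - p.2.im))) := by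
    rw [← Finset.sum_add_distrib, Finset.mul_sum]
    refine Finset.sum_congr rfl fun p _ => ?_
    ring
  rw [e3]
  exact mul_nonneg (Real.exp_pos _).le (add_nonneg (cos_sum_nonneg _ _) (cos_sum_nonneg _ _))

lemma cos_dd {T : ℝ} (hT : 1 ≤ T) (α : ℝ) (p : ℂ × ℂ) :
    Real.cos (α * Real.log T * (p.1.im - p.2.im)) =
      Real.cos (2 * Real.pi * α * dd (Real.log T) p) := by
  have h1 := dd_eq_abs hT p
  have hpi := Real.pi_pos
  rw [h1]
  have h2 : α * Real.log T * (p.1.im - p.2.im) = 2 * Real.pi * α * ud T p := by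
    unfold ud
    field_simp
  rw [h2]
  rcases abs_cases (ud T p) with ⟨h, -⟩ | ⟨h, -⟩
  · rw [h]
  · rw [h, mul_neg, Real.cos_neg]

/-- integrals of the form factor -/
lemma int_fk {b : ℝ} {r : ℝ → ℝ} (hr : TF b r) {T : ℝ} (hT : 1 ≤ T) :
    ∫ α, fk T α * r α = (∑ p ∈ SS T, ww p * (kw p * bl r (dd (Real.log T) p))) / XX T := by
  have e1 : ∀ α, fk T α * r α = ∑ p ∈ SS T, (ww p * kw p / XX T) *
      (r α * Real.cos (2 * Real.pi * α * dd (Real.log T) p)) := by
    intro α
    unfold fk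
    rw [Finset.sum_div, Finset.sum_mul]
    refine Finset.sum_congr rfl fun p _ => ?_
    rw [cos_dd hT]
    ring
  simp_rw [e1]
  rw [integral_finsetSum _ fun p _ => (hr.int_mul (cos_cont _)).const_mul _, Finset.sum_div]
  refine Finset.sum_congr rfl fun p _ => ?_
  rw [integral_const_mul]
  unfold bl
  ring

/-- the weight is negligible -/
lemma fk_QS {b : ℝ} {r : ℝ → ℝ} (hr : TF b r) : Tendsto (fun T => (∫ α, fk T α * r α) -
    QS (ZT T) (ZT T) (Real.log T) (bl r) / XX T) atTop (𝓝 0) := by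
  obtain ⟨C, T0, hC, hT0, hWS⟩ := WS_le
  obtain ⟨D, hD, hdec⟩ := hr.decay 2
  have hpi := Real.pi_pos
  have hlim : Tendsto (fun T : ℝ => Real.pi ^ 2 * D * C / Real.log T ^ 2) atTop (𝓝 0) := by
    apply Tendsto.const_div_atTop
    exact (tendsto_pow_atTop (by norm_num)).comp Real.tendsto_log_atTop
  refine squeeze_zero_norm' ?_ hlim
  filter_upwards [eventually_ge_atTop T0] with T hT
  have hT10 : 10 ≤ T := hT0.trans hT
  have hX := XX_pos hT10
  have hL : 0 < Real.log T := by linarith [log_ge hT10]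
  rw [int_fk hr (by linarith)]
  have e : (∑ p ∈ SS T, ww p * (kw p * bl r (dd (Real.log T) p))) / XX T -
      QS (ZT T) (ZT T) (Real.log T) (bl r) / XX T =
      (∑ p ∈ SS T, ww p * ((kw p - 1) * bl r (dd (Real.log T) p))) / XX T := by
    unfold QS SS
    rw [← sub_div, ← Finset.sum_sub_distrib]
    congr 1
    refine Finset.sum_congr rfl fun p _ => ?_
    ring
  rw [e, Real.norm_eq_abs, abs_div, abs_of_pos hX, div_le_div_iff₀ hX (by positivity)]
  have hp : ∀ p ∈ SS T, |ww p * ((kw p - 1) * bl r (dd (Real.log T) p))| ≤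
      Real.pi ^ 2 * D / Real.log T ^ 2 * (ww p / (1 + dd (Real.log T) p ^ 2)) := by
    intro p _
    rw [abs_mul, abs_of_nonneg (ww_nonneg p), abs_mul]
    have h1 : |kw p - 1| ≤ Real.pi ^ 2 / Real.log T ^ 2 * dd (Real.log T) p ^ 2 := by
      have h2 : dd (Real.log T) p ^ 2 = (p.1.im - p.2.im) ^ 2 * Real.log T ^ 2 / (2 * Real.pi) ^ 2 := by
        unfold dd
        rw [div_pow, mul_pow, sq_abs]
      rw [h2, abs_of_nonpos (by linarith [kw_le p])]
      have h3 : -(kw p - 1) = (p.1.im - p.2.im) ^ 2 / (4 + (p.1.im - p.2.im) ^ 2) := by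
        unfold kw
        field_simp
        ring
      rw [h3]
      have h4 : Real.pi ^ 2 / Real.log T ^ 2 *
          ((p.1.im - p.2.im) ^ 2 * Real.log T ^ 2 / (2 * Real.pi) ^ 2) = (p.1.im - p.2.im) ^ 2 / 4 := by
        field_simp
        ring
      rw [h4]
      apply div_le_div_of_nonneg_left (sq_nonneg _) (by norm_num)
      linarith [sq_nonneg (p.1.im - p.2.im)]
    set u := dd (Real.log T) p with hu
    have h2 := hdec u
    have h3 : |bl r u| * u ^ 2 ≤ D / (1 + u ^ 2) := by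
      rw [le_div_iff₀ (by positivity)]
      calc |bl r u| * u ^ 2 * (1 + u ^ 2) ≤ |bl r u| * (1 + u ^ 2) * (1 + u ^ 2) := by
            gcongr
            linarith
        _ = |bl r u| * (1 + u ^ 2) ^ 2 := by ring
        _ ≤ D := h2
    calc ww p * (|kw p - 1| * |bl r u|) ≤
          ww p * (Real.pi ^ 2 / Real.log T ^ 2 * u ^ 2 * |bl r u|) := by
            have := ww_nonneg p
            gcongr
      _ = ww p * (Real.pi ^ 2 / Real.log T ^ 2) * (|bl r u| * u ^ 2) := by ring
      _ ≤ ww p * (Real.pi ^ 2 / Real.log T ^ 2) * (D / (1 + u ^ 2)) := by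
            have := ww_nonneg p
            gcongr
      _ = _ := by ring
  have h1 := (Finset.abs_sum_le_sum_abs _ _).trans (Finset.sum_le_sum hp)
  rw [← Finset.mul_sum] at h1
  have h2 := hWS T hT
  unfold WS at h2
  calc |∑ p ∈ SS T, ww p * ((kw p - 1) * bl r (dd (Real.log T) p))| * Real.log T ^ 2 ≤
        (Real.pi ^ 2 * D / Real.log T ^ 2 * (C * XX T)) * Real.log T ^ 2 := by
          refine mul_le_mul_of_nonneg_right (h1.trans ?_) (by positivity)
          refine mul_le_mul_of_nonneg_left h2 (by positivity)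
    _ = Real.pi ^ 2 * D * C * XX T := by field_simp

/-- the limits of the integrals -/
lemma lim_fk {U : Filter ℝ} (hU : U ≤ atTop) {μ : Measure ℝ} (hμ : LimM U SS wn xn μ)
    {b : ℝ} {r : ℝ → ℝ} (hr : TF b r) :
    Tendsto (fun T => ∫ α, fk T α * r α) U (𝓝 (2 * ∫ u, bl r u ∂μ)) := by
  obtain ⟨B, hB, hdec⟩ := hr.decay 1
  simp only [pow_one] at hdec
  have h1 := (hμ.lim (bl r) (bl_cont hr) ⟨B, hdec⟩).const_mul 2
  have h2 : Tendsto (fun T => QS (ZT T) (ZT T) (Real.log T) (bl r) / XX T) U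
      (𝓝 (2 * ∫ u, bl r u ∂μ)) := by
    refine h1.congr fun T => ?_
    rw [sum_QS]
    ring
  have h3 := ((fk_QS hr).mono_left hU).add h2
  rw [zero_add] at h3
  refine h3.congr fun T => ?_
  ring

end Pool.Agent.E8helper29.FF
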