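import Pool.Agent.E8helper72.PC.ZBlock
import Pool.Agent.E8helper72.PC.Lim

/-! The predicted pair sums, small scale estimate. -/

set_option autoImplicit false

namespace Pool.Agent.E8helper29.FF

open MeasureTheory Set Filter Topology
open Pool.Agent.E8helper72.PC
open H370.A2

/-- the integral against the Fejer kernel -/
lemma fejer_int {ψ : ℝ → ℝ} {μ : ℝ} (hψ : Continuous ψ) (hz : ∀ x, μ ≤ |x| → ψ x = 0)
    {C : ℝ} (hC : ∀ x, |RR ψ μ x| * x ^ 2 ≤ C) :
    ∫ x, RR ψ μ x * (Real.sin (Real.pi * x) / (Real.pi * x)) ^ 2 =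
      ∫ β in (-1 : ℝ)..1, (1 - |β|) * evp ψ β := by
  have hRi := RR_integrable hψ hz hC
  have hRc := RR_cont (μ := μ) hψ
  have hev : Continuous (evp ψ) := evp_cont hψ
  have h1 : ∫ x, RR ψ μ x * (Real.sin (Real.pi * x) / (Real.pi * x)) ^ 2 =
      ∫ x, ∫ β in Set.Ioc (-1 : ℝ) 1, RR ψ μ x * ((1 - |β|) * Real.cos (2 * Real.pi * x * β)) := by
    refine integral_congr_ae ?_
    have h0 : ∀ᵐ x : ℝ, x ≠ 0 := by
      rw [ae_iff]
      simp
    filter_upwards [h0] with x hx
    rw [← fejer hx, intervalIntegral.integral_of_le (by norm_num), integral_const_mul]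
  have hint : Integrable (Function.uncurry fun x β : ℝ =>
      RR ψ μ x * ((1 - |β|) * Real.cos (2 * Real.pi * x * β)))
      (volume.prod (volume.restrict (Set.Ioc (-1 : ℝ) 1))) := by
    have hc1 : Integrable (fun β : ℝ => 1 - |β|) (volume.restrict (Set.Ioc (-1 : ℝ) 1)) :=
      ((by fun_prop : Continuous fun β : ℝ => 1 - |β|).integrableOn_Icc).mono_set
        Set.Ioc_subset_Icc_self
    refine (hRi.norm.mul_prod hc1.norm).mono' ?_ (Filter.Eventually.of_forall fun z => ?_)
    · apply Continuous.aestronglyMeasurable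
      unfold Function.uncurry
      fun_prop
    · simp only [Function.uncurry]
      rw [norm_mul, norm_mul]
      have := Real.abs_cos_le_one (2 * Real.pi * z.1 * z.2)
      rw [← Real.norm_eq_abs] at this
      calc ‖RR ψ μ z.1‖ * (‖1 - |z.2|‖ * ‖Real.cos (2 * Real.pi * z.1 * z.2)‖) ≤
          ‖RR ψ μ z.1‖ * (‖1 - |z.2|‖ * 1) := by gcongr
        _ = _ := by ring
  rw [h1, integral_integral_swap hint, intervalIntegral.integral_of_le (by norm_num)]
  refine integral_congr_ae (Filter.Eventually.of_forall fun β => ?_)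
  show ∫ x, RR ψ μ x * ((1 - |β|) * Real.cos (2 * Real.pi * x * β)) = (1 - |β|) * evp ψ β
  rw [← RR_inv hψ hz hC β, ← integral_const_mul]
  refine integral_congr_ae (Filter.Eventually.of_forall fun x => ?_)
  show RR ψ μ x * ((1 - |β|) * Real.cos (2 * Real.pi * x * β)) = _
  ring

/-- the predicted form factor -/
noncomputable def wt (α : ℝ) : ℝ := min |α| 1

lemma wt_cont : Continuous wt := continuous_abs.min continuous_const

lemma wt_nonneg (α : ℝ) : 0 ≤ wt α := le_min (abs_nonneg _) zero_le_one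

lemma wt_le_one (α : ℝ) : wt α ≤ 1 := min_le_right _ _

/-- the predicted pair sum in terms of the transform -/
theorem MM_gen {b : ℝ} {r : ℝ → ℝ} (hr : TF b r) : MM r = r 0 + ∫ α, wt α * r α := by
  have hpi := Real.pi_pos
  set μ : ℝ := |b| + 1 with hμ
  have hz : ∀ x, μ ≤ |x| → r x = 0 := fun x hx => hr.supp x (by linarith [le_abs_self b])
  have hμ1 : 1 ≤ μ := by rw [hμ]; linarith [abs_nonneg b]
  have hwhole : ∀ c : ℝ → ℝ, ∫ α in (-μ)..μ, r α * c α = ∫ α, r α * c α := by
    intro c
    apply intervalIntegral.integral_eq_integral_of_support_subset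
    intro α hα
    by_contra h
    apply hα
    have : μ ≤ |α| := by
      by_contra h2
      push Not at h2
      obtain ⟨h3, h4⟩ := abs_lt.1 h2
      exact h ⟨by linarith, by linarith⟩
    show r α * c α = 0
    rw [hz α this, zero_mul]
  have e1 : ∀ u, RR r μ u = bl r u := fun u => hwhole _
  obtain ⟨A, hA, hdec⟩ := hr.decay 1
  have hC : ∀ x, |RR r μ x| * x ^ 2 ≤ A := by
    intro x
    rw [e1]
    refine le_trans ?_ (hdec x)
    rw [pow_one]
    apply mul_le_mul_of_nonneg_left _ (abs_nonneg _)
    linarith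
  have hF := fejer_int hr.cont hz hC
  have h0 : ∫ x, RR r μ x = r 0 := by
    have h1 := RR_inv hr.cont hz hC 0
    simp only [mul_zero, Real.cos_zero, mul_one] at h1
    rw [h1]
    unfold evp
    simp
  have hRi := RR_integrable hr.cont hz hC
  have hRc := RR_cont (μ := μ) hr.cont
  have hsi : Integrable fun x => RR r μ x * (Real.sin (Real.pi * x) / (Real.pi * x)) ^ 2 := by
    refine hRi.norm.mono' ?_ (Filter.Eventually.of_forall fun x => ?_)
    · apply hRc.aestronglyMeasurable.mul
      apply Measurable.aestronglyMeasurable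
      fun_prop
    · rw [norm_mul, norm_pow]
      have : ‖Real.sin (Real.pi * x) / (Real.pi * x)‖ ≤ 1 := by
        rw [norm_div, Real.norm_eq_abs, Real.norm_eq_abs]
        exact div_le_one_of_le₀ Real.abs_sin_le_abs (abs_nonneg _)
      have h2 : ‖Real.sin (Real.pi * x) / (Real.pi * x)‖ ^ 2 ≤ 1 := pow_le_one₀ (norm_nonneg _) this
      exact mul_le_of_le_one_right (norm_nonneg _) h2
  -- the integral of the density
  have h2 : 2 * ∫ u in Ioi 0, bl r u ∂lam = r 0 - ∫ β in (-1 : ℝ)..1, (1 - |β|) * evp r β := by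
    rw [← h0, ← hF, ← integral_sub hRi hsi, lam_integral _ measurableSet_Ioi]
    have h4 := integral_comp_abs (f := fun u => bl r u * FF u)
    have h5 : ∫ u in Ioi (0 : ℝ), FF u * bl r u = ∫ u in Ioi (0 : ℝ), bl r u * FF u :=
      setIntegral_congr_fun measurableSet_Ioi fun u _ => mul_comm _ _
    rw [h5, ← h4]
    refine integral_congr_ae ?_
    have h00 : ∀ᵐ x : ℝ, x ≠ 0 := by
      rw [ae_iff]
      simp
    filter_upwards [h00] with u hu
    rw [e1]
    have h6 : bl r |u| = bl r u := by
      rcases abs_cases u with ⟨h, -⟩ | ⟨h, -⟩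
      · rw [h]
      · rw [h, bl_neg_arg]
    have h7 : FF |u| = 1 - (Real.sin (Real.pi * u) / (Real.pi * u)) ^ 2 := by
      unfold FF
      rcases abs_cases u with ⟨h, -⟩ | ⟨h, -⟩
      · rw [h, Real.sinc_of_ne_zero (by positivity)]
      · rw [h, mul_neg, Real.sinc_neg, Real.sinc_of_ne_zero (by positivity)]
    rw [h6, h7]
    ring
  have h3 : ∫ β in (-1 : ℝ)..1, (1 - |β|) * evp r β = ∫ β, max 0 (1 - |β|) * r β := by
    have e2 := evp_int hr.cont (c := fun β => 1 - |β|) (by fun_prop) (fun x => by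
      show 1 - |-x| = 1 - |x|
      rw [abs_neg]) 1
    have e3 : ∫ β in (-1 : ℝ)..1, (1 - |β|) * evp r β = ∫ β in (-1 : ℝ)..1, evp r β * (1 - |β|) :=
      intervalIntegral.integral_congr fun β _ => mul_comm _ _
    rw [e3, ← e2]
    have e4 : ∫ β in (-1 : ℝ)..1, r β * (1 - |β|) = ∫ β in (-1 : ℝ)..1, max 0 (1 - |β|) * r β := by
      refine intervalIntegral.integral_congr fun β hβ => ?_
      rw [Set.uIcc_of_le (by norm_num)] at hβ
      show r β * (1 - |β|) = max 0 (1 - |β|) * r β
      rw [max_eq_right (by have := abs_le.2 hβ; linarith), mul_comm]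
    rw [e4]
    apply intervalIntegral.integral_eq_integral_of_support_subset
    intro α hα
    by_contra h
    apply hα
    have : 1 ≤ |α| := by
      by_contra h2
      push Not at h2
      obtain ⟨h3, h4⟩ := abs_lt.1 h2
      exact h ⟨by linarith, by linarith⟩
    show max 0 (1 - |α|) * r α = 0
    rw [max_eq_left (by linarith), zero_mul]
  have h4 : bl r 0 = ∫ β, r β := by
    unfold bl
    simp
  unfold MM
  rw [h2, h3, h4]
  have i1 : Integrable fun β => max 0 (1 - |β|) * r β := by
    have := hr.int_mul (g := fun β => max 0 (1 - |β|)) (by fun_prop)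
    refine this.congr (Eventually.of_forall fun β => mul_comm _ _)
  have h5 : (∫ β, r β) - ∫ β, max 0 (1 - |β|) * r β = ∫ α, wt α * r α := by
    rw [← integral_sub hr.integrable i1]
    congr 1
    funext β
    unfold wt
    rcases le_total |β| 1 with h | h
    · rw [min_eq_left h, max_eq_right (by linarith)]
      ring
    · rw [min_eq_right h, max_eq_left (by linarith)]
      ring
  linarith

lemma MM_add {b : ℝ} {r s : ℝ → ℝ} (hr : TF b r) (hs : TF b s) :
    MM (fun α => r α + s α) = MM r + MM s := by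
  rw [MM_gen hr, MM_gen hs, MM_gen (hr.add hs)]
  have i1 : Integrable fun α => wt α * r α :=
    (hr.int_mul wt_cont).congr (Eventually.of_forall fun β => mul_comm _ _)
  have i2 : Integrable fun α => wt α * s α :=
    (hs.int_mul wt_cont).congr (Eventually.of_forall fun β => mul_comm _ _)
  have : ∫ α, wt α * (r α + s α) = (∫ α, wt α * r α) + ∫ α, wt α * s α := by
    rw [← integral_add i1 i2]
    congr 1
    funext α
    ring
  rw [this]
  ring

lemma MM_const_mul {b : ℝ} {r : ℝ → ℝ} (hr : TF b r) (c : ℝ) :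
    MM (fun α => c * r α) = c * MM r := by
  rw [MM_gen hr, MM_gen (hr.const_mul c)]
  have : ∫ α, wt α * (c * r α) = c * ∫ α, wt α * r α := by
    rw [← integral_const_mul]
    congr 1
    funext α
    ring
  rw [this]
  ring

/-- the density vanishes to the second order at the origin -/
lemma FF_small (u : ℝ) : FF u ≤ (Real.pi * u) ^ 2 := by
  have hmain : ∀ x : ℝ, 0 ≤ x → 1 - Real.sinc x ^ 2 ≤ x ^ 2 := by
    intro x hx
    rcases hx.eq_or_lt with h | h
    · rw [← h]
      simp
    · rcases le_or_gt x 1 with h1 | h1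
      · have h2 := Real.sin_gt_sub_cube h
        have h3 : 1 - x ^ 2 / 6 ≤ Real.sinc x := by
          rw [Real.sinc_of_ne_zero h.ne', le_div_iff₀ h]
          have e : (1 - x ^ 2 / 6) * x = x - x ^ 3 / 6 := by ring
          rw [e]
          exact h2.le
        have h4 : 0 ≤ 1 - x ^ 2 / 6 := by nlinarith
        have h5 : (1 - x ^ 2 / 6) ^ 2 ≤ Real.sinc x ^ 2 := pow_le_pow_left₀ h4 h3 2
        nlinarith [sq_nonneg (x ^ 2)]
      · have h2 : 1 ≤ x ^ 2 := one_le_pow₀ h1.le
        have := sq_nonneg (Real.sinc x)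
        linarith
  unfold FF
  rcases le_total 0 (Real.pi * u) with h | h
  · exact hmain _ h
  · have := hmain (-(Real.pi * u)) (by linarith)
    rw [Real.sinc_neg] at this
    nlinarith

end Pool.Agent.E8helper29.FF
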