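import Pool.Agent.E8helper29.FF.Form

/-! From windows to test functions and back. -/

set_option autoImplicit false

namespace Pool.Agent.E8helper29.FF

open MeasureTheory Set Filter Topology
open Pool.Agent.E8helper72.PC

/-- from windows to continuous functions -/
lemma step_bound {ι : Type*} {l : Filter ι} {f : ι → ℝ → ℝ} {w ρ : ℝ → ℝ} {A B : ℝ} (hAB : A < B)
    (hfc : ∀ i, Continuous (f i)) (hf0 : ∀ᶠ i in l, ∀ α, 0 ≤ f i α) (hw : Continuous w)
    (hw0 : ∀ α, 0 ≤ w α) (hρ : Continuous ρ) (hρ0 : ∀ α, 0 ≤ ρ α)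
    (hwin : ∀ a b, A ≤ a → a < b → ∀ ε, 0 < ε → ∀ᶠ i in l, ∫ α in a..b, f i α ≤
      (∫ α in a..b, w α) + ε) (ε : ℝ) (hε : 0 < ε) :
    ∀ᶠ i in l, ∫ α in A..B, f i α * ρ α ≤ (∫ α in A..B, w α * ρ α) + ε := by
  obtain ⟨R, hR⟩ := (isCompact_Icc (a := A) (b := B)).exists_bound_of_continuousOn
    (f := ρ) hρ.continuousOn
  have hR0 : 0 ≤ R := (norm_nonneg _).trans (hR A ⟨le_rfl, hAB.le⟩)
  set W := ∫ α in A..B, w α with hW
  have hW0 : 0 ≤ W := intervalIntegral.integral_nonneg hAB.le fun α _ => hw0 α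
  set η := ε / (4 * (W + 1)) with hη
  have hη0 : 0 < η := by positivity
  have hηW : 2 * η * W ≤ ε / 2 := by
    rw [hη]
    have : 2 * (ε / (4 * (W + 1))) * W = ε / 2 * (W / (W + 1)) := by
      field_simp
      ring
    rw [this]
    have h1 : W / (W + 1) ≤ 1 := by
      rw [div_le_one (by linarith)]
      linarith
    nlinarith
  have huc : UniformContinuousOn ρ (Icc A B) :=
    isCompact_Icc.uniformContinuousOn_of_continuous hρ.continuousOn
  obtain ⟨δ, hδ, huc⟩ := Metric.uniformContinuousOn_iff.1 huc η hη0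
  obtain ⟨N, hN⟩ := exists_nat_gt ((B - A) / δ)
  have hBA : 0 < B - A := by linarith
  have hN0 : (0 : ℝ) < N := lt_trans (by positivity) hN
  set h := (B - A) / N with hh
  have hh0 : 0 < h := by positivity
  have hhδ : h < δ := by
    rw [hh, div_lt_iff₀ hN0]
    rw [div_lt_iff₀ hδ] at hN
    linarith
  set a : ℕ → ℝ := fun j => A + j * h with ha
  have ha0 : a 0 = A := by simp [ha]
  have haN : a N = B := by
    rw [ha, hh]
    field_simp
    ring
  have hstep : ∀ j, a (j + 1) = a j + h := by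
    intro j
    rw [ha]
    push_cast
    ring
  have haA : ∀ j, A ≤ a j := fun j => by
    have : 0 ≤ (j : ℝ) * h := by positivity
    rw [ha]
    simp only
    linarith
  have haB : ∀ j, j ≤ N → a j ≤ B := fun j hj => by
    rw [← haN, ha]
    simp only
    have : (j : ℝ) ≤ N := by exact_mod_cast hj
    nlinarith
  set ε' := ε / (2 * N * (R + η)) with hε'
  have hε'0 : 0 < ε' := by positivity
  have hev : ∀ᶠ i in l, ∀ j ∈ Finset.range N, ∫ α in a j..a (j + 1), f i α ≤
      (∫ α in a j..a (j + 1), w α) + ε' := by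
    rw [Filter.eventually_all_finset]
    intro j _
    exact hwin _ _ (haA j) (by rw [hstep]; linarith) ε' hε'0
  filter_upwards [hf0, hev] with i hi1 hi2
  have s1 := intervalIntegral.sum_integral_adjacent_intervals (μ := volume) (a := a) (n := N)
    (f := fun α => f i α * ρ α) fun k _ => ((hfc i).mul hρ).intervalIntegrable _ _
  have s2 := intervalIntegral.sum_integral_adjacent_intervals (μ := volume) (a := a) (n := N)
    (f := fun α => w α * ρ α) fun k _ => (hw.mul hρ).intervalIntegrable _ _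
  have s3 := intervalIntegral.sum_integral_adjacent_intervals (μ := volume) (a := a) (n := N)
    (f := w) fun k _ => hw.intervalIntegrable _ _
  rw [ha0, haN] at s1 s2 s3
  have hterm : ∀ j ∈ Finset.range N, ∫ α in a j..a (j + 1), f i α * ρ α ≤
      (∫ α in a j..a (j + 1), w α * ρ α) + 2 * η * (∫ α in a j..a (j + 1), w α) +
        (R + η) * ε' := by
    intro j hj
    have hjN : j + 1 ≤ N := Finset.mem_range.1 hj
    have hle : a j ≤ a (j + 1) := by rw [hstep]; linarith
    have hmem : a j ∈ Icc A B := ⟨haA j, haB j (by omega)⟩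
    have hclose : ∀ α ∈ Icc (a j) (a (j + 1)), |ρ α - ρ (a j)| ≤ η := by
      intro α hα
      have h1 : α ∈ Icc A B := ⟨(haA j).trans hα.1, hα.2.trans (haB _ hjN)⟩
      have h2 := huc α h1 (a j) hmem (by
        rw [Real.dist_eq, abs_of_nonneg (by linarith [hα.1])]
        have := hα.2
        rw [hstep] at this
        linarith)
      rw [Real.dist_eq] at h2
      exact h2.le
    have h1 : ∫ α in a j..a (j + 1), f i α * ρ α ≤
        ∫ α in a j..a (j + 1), (ρ (a j) + η) * f i α := by
      refine intervalIntegral.integral_mono_on hle (((hfc i).mul hρ).intervalIntegrable _ _)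
        (((hfc i).const_mul _).intervalIntegrable _ _) fun α hα => ?_
      have h2 := (abs_le.1 (hclose α hα)).2
      have h3 := hi1 α
      nlinarith
    rw [intervalIntegral.integral_const_mul] at h1
    have h2 := hi2 j hj
    have h3 : 0 ≤ ρ (a j) + η := by linarith [hρ0 (a j)]
    have h4 : ρ (a j) ≤ R := (le_abs_self _).trans (hR _ hmem)
    have h5 : (ρ (a j) + η) * ∫ α in a j..a (j + 1), w α ≤
        (∫ α in a j..a (j + 1), w α * ρ α) + 2 * η * (∫ α in a j..a (j + 1), w α) := by
      have q1 : IntervalIntegrable (fun α => w α * ρ α) volume (a j) (a (j + 1)) :=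
        (hw.mul hρ).intervalIntegrable _ _
      have q2 : IntervalIntegrable (fun α => 2 * η * w α) volume (a j) (a (j + 1)) :=
        (hw.const_mul _).intervalIntegrable _ _
      rw [← intervalIntegral.integral_const_mul, ← intervalIntegral.integral_const_mul,
        ← intervalIntegral.integral_add q1 q2]
      refine intervalIntegral.integral_mono_on hle ((hw.const_mul _).intervalIntegrable _ _)
        (q1.add q2) fun α hα => ?_
      have h2 := (abs_le.1 (hclose α hα)).1
      have h3 := hw0 α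
      nlinarith
    have h6 : (ρ (a j) + η) * ∫ α in a j..a (j + 1), f i α ≤
        (ρ (a j) + η) * ((∫ α in a j..a (j + 1), w α) + ε') := mul_le_mul_of_nonneg_left h2 h3
    have h7 : (ρ (a j) + η) * ε' ≤ (R + η) * ε' := by gcongr
    linarith
  have hsum := Finset.sum_le_sum hterm
  rw [s1, Finset.sum_add_distrib, Finset.sum_add_distrib, s2, ← Finset.mul_sum, s3,
    Finset.sum_const, Finset.card_range, nsmul_eq_mul] at hsum
  have h8 : (N : ℝ) * ((R + η) * ε') = ε / 2 := by
    rw [hε']
    have : 0 < R + η := by linarith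
    field_simp
  rw [h8] at hsum
  linarith

/-- integrals over the line of even functions against functions vanishing near the origin -/
lemma int_sym' {c : ℝ → ℝ} (hc : Continuous c) (hce : ∀ α, c (-α) = c α) {b : ℝ} {r : ℝ → ℝ}
    (hr : TF b r) {A B : ℝ} (hA : 0 ≤ A) (hAB : A < B) (hbB : b ≤ B)
    (hr0 : ∀ α, |α| ≤ A → r α = 0) :
    ∫ α, c α * r α = ∫ α in A..B, c α * (r α + r (-α)) := by
  have hi : Integrable fun α => c α * r α :=
    (hr.int_mul hc).congr (Eventually.of_forall fun α => mul_comm _ _)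
  have h1 : ∫ α, c α * r α = ∫ α, c |α| * (r |α| + r (-|α|)) / 2 := by
    have h2 : ∫ α, c (-α) * r (-α) = ∫ α, c α * r α :=
      integral_neg_eq_self (fun α => c α * r α) volume
    have h3 : ∀ α, c |α| * (r |α| + r (-|α|)) / 2 = (c α * r α + c (-α) * r (-α)) / 2 := by
      intro α
      rcases abs_cases α with ⟨h, -⟩ | ⟨h, -⟩
      · rw [h, hce]
        ring
      · rw [h, neg_neg, hce]
        ring
    simp_rw [h3]
    rw [integral_div, integral_add hi hi.comp_neg, h2]
    ring
  rw [h1, integral_comp_abs (f := fun α => c α * (r α + r (-α)) / 2), ← integral_const_mul,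
    intervalIntegral.integral_of_le hAB.le]
  have h4 : ∫ α in Ioi (0 : ℝ), 2 * (c α * (r α + r (-α)) / 2) =
      ∫ α in Ioi (0 : ℝ), c α * (r α + r (-α)) :=
    setIntegral_congr_fun measurableSet_Ioi fun α _ => by
      show 2 * (c α * (r α + r (-α)) / 2) = c α * (r α + r (-α))
      ring
  rw [h4]
  apply setIntegral_eq_of_subset_of_forall_sdiff_eq_zero measurableSet_Ioi
  · intro α hα
    exact lt_of_le_of_lt hA hα.1
  · intro α hα
    obtain ⟨h5, h6⟩ := hα
    have h5' : 0 < α := h5
    have h7 : |α| ≤ A ∨ b < |α| := by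
      rw [abs_of_pos h5']
      by_contra hcon
      push Not at hcon
      exact h6 ⟨hcon.1, hcon.2.trans hbB⟩
    have h8 : r α = 0 ∧ r (-α) = 0 := by
      rcases h7 with h | h
      · exact ⟨hr0 α h, hr0 _ (by rwa [abs_neg])⟩
      · exact ⟨hr.supp α h, hr.supp _ (by rwa [abs_neg])⟩
    rw [h8.1, h8.2]
    ring

/-- the upper bound for the test functions -/
lemma up_of_windows {l : Filter ℝ} (hl : l ≤ atTop)
    (hwin : ∀ a b, 1 / 3 ≤ a → a < b → ∀ ε, 0 < ε → ∀ᶠ T in l, ∫ α in a..b, fk T α ≤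
      (∫ α in a..b, min α 1) + ε)
    {b : ℝ} {r : ℝ → ℝ} (hr : TF b r) (hr0 : ∀ α, 0 ≤ r α) (hr3 : ∀ α, |α| ≤ 1 / 3 → r α = 0)
    (ε : ℝ) (hε : 0 < ε) : ∀ᶠ T in l, ∫ α, fk T α * r α ≤ MM r + ε := by
  set B := max b 1 with hB
  have hB1 : (1 : ℝ) ≤ B := le_max_right _ _
  have hM : MM r = ∫ α in (1 / 3)..B, wt α * (r α + r (-α)) := by
    rw [MM_gen hr, hr3 0 (by norm_num), zero_add]
    exact int_sym' wt_cont (fun α => by unfold wt; rw [abs_neg]) hr (by norm_num) (by linarith)
      (le_max_left _ _) hr3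
  have hF : ∀ T, ∫ α, fk T α * r α = ∫ α in (1 / 3)..B, fk T α * (r α + r (-α)) := fun T =>
    int_sym' (fk_cont T) (fk_even T) hr (by norm_num) (by linarith) (le_max_left _ _) hr3
  rw [hM]
  simp_rw [hF]
  have hrc := hr.cont
  refine step_bound (l := l) (f := fk) (w := wt) (ρ := fun α => r α + r (-α)) (by linarith) fk_cont
    (by
      filter_upwards [hl (eventually_ge_atTop 10)] with T hT
      exact fk_nonneg hT) wt_cont wt_nonneg (by fun_prop)
    (fun α => add_nonneg (hr0 _) (hr0 _)) (fun a b ha hab e he => ?_) ε hε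
  have h1 : ∫ α in a..b, wt α = ∫ α in a..b, min α 1 := by
    refine intervalIntegral.integral_congr fun α hα => ?_
    rw [uIcc_of_le hab.le] at hα
    unfold wt
    rw [abs_of_nonneg (by linarith [hα.1])]
  rw [h1]
  exact hwin a b ha hab e he

/-- smooth bumps -/
lemma exists_bump {a b η : ℝ} (hab : a < b) (hη : 0 < η) : ∃ r : ℝ → ℝ,
    TF (|a| + |b| + η) r ∧ (∀ α, 0 ≤ r α) ∧ (∀ α, r α ≤ 1) ∧ (∀ α, a ≤ α → α ≤ b → r α = 1) ∧
    (∀ α, (α ≤ a - η ∨ b + η ≤ α) → r α = 0) := by
  let f : ContDiffBump ((a + b) / 2) := ⟨(b - a) / 2, (b - a) / 2 + η, by linarith, by linarith⟩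
  have hout : ∀ α, (α ≤ a - η ∨ b + η ≤ α) → f α = 0 := by
    intro α hα
    apply f.zero_of_le_dist
    rw [Real.dist_eq]
    show (b - a) / 2 + η ≤ |α - (a + b) / 2|
    rcases hα with h | h
    · rw [abs_of_nonpos (by linarith)]
      linarith
    · rw [abs_of_nonneg (by linarith)]
      linarith
  refine ⟨fun x => f x, ⟨f.contDiff, fun α hα => ?_⟩, fun x => f.nonneg, fun x => f.le_one,
    fun x h1 h2 => ?_, hout⟩
  · apply hout
    by_contra hcon
    push Not at hcon
    have h1 := neg_abs_le a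
    have h2 := le_abs_self b
    have h3 := abs_nonneg a
    have h4 := abs_nonneg b
    have : |α| ≤ |a| + |b| + η := abs_le.2 ⟨by linarith, by linarith⟩
    linarith
  · apply f.one_of_mem_closedBall
    rw [Metric.mem_closedBall, Real.dist_eq]
    show |x - (a + b) / 2| ≤ (b - a) / 2
    rw [abs_le]
    constructor <;> linarith

end Pool.Agent.E8helper29.FF
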