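import Pool.Agent.E8helper29.FF.Rigid

/-! Measures on the half line with the same integrals against all bandlimited functions. -/

set_option autoImplicit false

namespace Pool.Agent.E8helper29.FF

open MeasureTheory Set Filter Topology
open Pool.Agent.E8helper72.PC

/-- modulation -/
lemma bl_mod {χ : ℝ → ℝ} {b : ℝ} (hχ : TF b χ) (β : ℝ) : ∃ r, TF (b + |β|) r ∧
    ∀ u, bl r u = 2 * Real.cos (2 * Real.pi * β * u) * bl χ u := by
  have h1 : TF (b + |β|) (fun α => χ (α - β)) := by
    refine ⟨hχ.cd.comp (contDiff_id.sub contDiff_const), fun α hα => hχ.supp _ ?_⟩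
    have := abs_sub_abs_le_abs_sub α β
    linarith
  have h2 : TF (b + |β|) (fun α => χ (α + β)) := by
    refine ⟨hχ.cd.comp (contDiff_id.add contDiff_const), fun α hα => hχ.supp _ ?_⟩
    have := abs_sub_abs_le_abs_sub α (-β)
    rw [abs_neg, sub_neg_eq_add] at this
    linarith
  refine ⟨_, h1.add h2, fun u => ?_⟩
  rw [bl_add h1 h2]
  have e1 : bl (fun α => χ (α - β)) u = ∫ α, χ α * Real.cos (2 * Real.pi * (α + β) * u) := by
    unfold bl
    rw [← integral_sub_right_eq_self (fun α : ℝ => χ α * Real.cos (2 * Real.pi * (α + β) * u)) β]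
    congr 1
    funext α
    rw [sub_add_cancel]
  have e2 : bl (fun α => χ (α + β)) u = ∫ α, χ α * Real.cos (2 * Real.pi * (α - β) * u) := by
    unfold bl
    rw [← integral_add_right_eq_self (fun α : ℝ => χ α * Real.cos (2 * Real.pi * (α - β) * u)) β]
    congr 1
    funext α
    rw [add_sub_cancel_right]
  rw [e1, e2, ← integral_add (hχ.int_mul (by fun_prop)) (hχ.int_mul (by fun_prop))]
  unfold bl
  rw [← integral_const_mul]
  congr 1
  funext α
  have e3 : 2 * Real.pi * (α + β) * u = 2 * Real.pi * α * u + 2 * Real.pi * β * u := by ring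
  have e4 : 2 * Real.pi * (α - β) * u = 2 * Real.pi * α * u - 2 * Real.pi * β * u := by ring
  rw [e3, e4, Real.cos_add, Real.cos_sub]
  ring

set_option maxHeartbeats 2000000 in
/-- **uniqueness** -/
theorem uniq (m l : Measure ℝ) [IsLocallyFiniteMeasure m] [IsLocallyFiniteMeasure l]
    (hm : ∀ δ r, TF δ r → Integrable (bl r) m) (hl : ∀ δ r, TF δ r → Integrable (bl r) l)
    (hex : ∀ b r, TF b r → ∫ u in Ioi 0, bl r u ∂m = ∫ u in Ioi 0, bl r u ∂l) :
    m.restrict (Ioi 0) = l.restrict (Ioi 0) := by
  obtain ⟨χ, hχ, hχev, hχb, hχ0⟩ := exists_kernel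
  -- the weighted measures
  have key : ∀ a : ℝ, 0 < a → m.restrict (Ioc 0 a) = l.restrict (Ioc 0 a) := by
    intro a ha
    obtain ⟨e, he, hhalf⟩ : ∃ e : ℝ, 0 < e ∧ ∀ u ∈ Ioc 0 a, 1 / 2 ≤ bl χ (e * u) := by
      have h2 : ∀ᶠ u in 𝓝 (0 : ℝ), 1 / 2 < bl χ u := by
        have : (1 / 2 : ℝ) < bl χ 0 := by rw [hχ0]; norm_num
        exact (bl_cont hχ).continuousAt.eventually (lt_mem_nhds this)
      obtain ⟨w, hw, h3⟩ := Metric.eventually_nhds_iff.1 h2
      refine ⟨w / (2 * a), by positivity, fun u hu => (h3 ?_).le⟩
      rw [Real.dist_eq, sub_zero]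
      have hu0 : 0 < u := hu.1
      rw [abs_of_pos (by positivity)]
      calc w / (2 * a) * u ≤ w / (2 * a) * a := by
            have := hu.2
            gcongr
        _ = w / 2 := by field_simp
        _ < w := by linarith
    set χe : ℝ → ℝ := fun α => e⁻¹ * χ (α / e) with hχe
    have hTFe : TF e χe := by
      have := (hχ.scale he).const_mul e⁻¹
      rwa [mul_one] at this
    have hbe : ∀ u, bl χe u = bl χ (e * u) := by
      intro u
      rw [hχe, bl_const_mul, bl_scale χ he]
      field_simp
    have hbc : Continuous fun u => bl χe u := bl_cont hTFe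
    have hbn : ∀ u, 0 ≤ bl χe u := fun u => by rw [hbe]; exact hχb _
    set d : ℝ → ENNReal := fun u => ENNReal.ofReal (bl χe u) with hd
    have hdm : Measurable d := ENNReal.measurable_ofReal.comp hbc.measurable
    -- finiteness
    have hfin : ∀ (p : Measure ℝ), Integrable (bl χe) p →
        IsFiniteMeasure ((p.restrict (Ioi 0)).withDensity d) := by
      intro p hp
      refine isFiniteMeasure_withDensity ?_
      have h1 := (hp.restrict (s := Ioi 0)).lintegral_lt_top
      exact h1.ne
    have hm1 := hfin m (hm _ _ hTFe)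
    have hl1 := hfin l (hl _ _ hTFe)
    set m1 := (m.restrict (Ioi 0)).withDensity d with hm1d
    set l1 := (l.restrict (Ioi 0)).withDensity d with hl1d
    -- the real part of the characteristic function
    have hre : ∀ (p : Measure ℝ) (_ : IsFiniteMeasure ((p.restrict (Ioi 0)).withDensity d)) (t : ℝ),
        charFun ((p.restrict (Ioi 0)).withDensity d) t +
          charFun ((p.restrict (Ioi 0)).withDensity d) (-t) =
        ((∫ u in Ioi 0, 2 * Real.cos (t * u) * bl χe u ∂p : ℝ) : ℂ) := by
      intro p hp t
      set p1 := (p.restrict (Ioi 0)).withDensity d with hp1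
      have hb : ∀ s : ℝ, Integrable (fun x : ℝ => Complex.exp (s * x * Complex.I)) p1 := by
        intro s
        refine Integrable.mono' (integrable_const (1 : ℝ)) (by
          apply Continuous.aestronglyMeasurable
          fun_prop) (Eventually.of_forall fun x => ?_)
        have : (s * x * Complex.I : ℂ) = ((s * x : ℝ) : ℂ) * Complex.I := by push_cast; ring
        rw [this, Complex.norm_exp_ofReal_mul_I]
      rw [charFun_apply_real, charFun_apply_real, ← integral_add (hb t) (hb (-t))]
      have e1 : ∀ x : ℝ, Complex.exp (t * x * Complex.I) + Complex.exp ((-t : ℝ) * x * Complex.I) =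
          ((2 * Real.cos (t * x) : ℝ) : ℂ) := by
        intro x
        push_cast
        rw [Complex.cos]
        have e3 : (-(t : ℂ)) * x * Complex.I = -((t : ℂ) * x) * Complex.I := by ring
        rw [e3]
        ring
      simp_rw [e1]
      rw [integral_complex_ofReal, hp1, integral_withDensity_eq_integral_toReal_smul hdm
        (Eventually.of_forall fun _ => ENNReal.ofReal_lt_top)]
      congr 1
      refine integral_congr_ae (Eventually.of_forall fun u => ?_)
      show (d u).toReal • (2 * Real.cos (t * u)) = 2 * Real.cos (t * u) * bl χe u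
      rw [hd]
      simp only
      rw [ENNReal.toReal_ofReal (hbn u), smul_eq_mul, mul_comm]
    have hcf : ∀ t : ℝ, charFun m1 t + charFun m1 (-t) = charFun l1 t + charFun l1 (-t) := by
      intro t
      rw [hm1d, hl1d, hre m hm1 t, hre l hl1 t]
      congr 1
      obtain ⟨r, hr, hru⟩ := bl_mod hTFe (t / (2 * Real.pi))
      have e1 : ∀ u, 2 * Real.cos (t * u) * bl χe u = bl r u := by
        intro u
        rw [hru]
        have : 2 * Real.pi * (t / (2 * Real.pi)) * u = t * u := by
          have := Real.pi_pos
          field_simp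
        rw [this]
      simp_rw [e1]
      exact hex _ r hr
    -- symmetrised measures
    have hsym : m1 + m1.map (fun x => (-1) * x) = l1 + l1.map (fun x => (-1) * x) := by
      apply Measure.ext_of_charFun
      funext t
      have hadd : ∀ (p q : Measure ℝ) [IsFiniteMeasure p] [IsFiniteMeasure q],
          charFun (p + q) t = charFun p t + charFun q t := by
        intro p q _ _
        rw [charFun_apply_real, charFun_apply_real, charFun_apply_real, integral_add_measure]
        · refine Integrable.mono' (integrable_const (1 : ℝ)) (by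
            apply Continuous.aestronglyMeasurable
            fun_prop) (Eventually.of_forall fun x => ?_)
          have : (t * x * Complex.I : ℂ) = ((t * x : ℝ) : ℂ) * Complex.I := by push_cast; ring
          rw [this, Complex.norm_exp_ofReal_mul_I]
        · refine Integrable.mono' (integrable_const (1 : ℝ)) (by
            apply Continuous.aestronglyMeasurable
            fun_prop) (Eventually.of_forall fun x => ?_)
          have : (t * x * Complex.I : ℂ) = ((t * x : ℝ) : ℂ) * Complex.I := by push_cast; ring
          rw [this, Complex.norm_exp_ofReal_mul_I]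
      rw [hadd, hadd, charFun_map_mul, charFun_map_mul, neg_one_mul]
      exact hcf t
    have hneg : ∀ (p : Measure ℝ), ((p.restrict (Ioi 0)).withDensity d).map (fun x => (-1) * x) (Ioi 0)
        = 0 := by
      intro p
      rw [Measure.map_apply (by fun_prop) measurableSet_Ioi]
      apply withDensity_absolutelyContinuous
      rw [Measure.restrict_apply (measurableSet_Ioi.preimage (by fun_prop))]
      have : (fun x : ℝ => (-1) * x) ⁻¹' Ioi 0 ∩ Ioi 0 = ∅ := by
        ext x
        simp only [mem_inter_iff, mem_preimage, mem_Ioi, mem_empty_iff_false, iff_false, not_and]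
        intro h1
        linarith
      rw [this, measure_empty]
    have heq : m1.restrict (Ioc 0 a) = l1.restrict (Ioc 0 a) := by
      have h1 := congrArg (fun p : Measure ℝ => p.restrict (Ioc 0 a)) hsym
      simp only [Measure.restrict_add] at h1
      have h2 : ∀ p : Measure ℝ, (((p.restrict (Ioi 0)).withDensity d).map
          (fun x => (-1) * x)).restrict (Ioc 0 a) = 0 := by
        intro p
        rw [Measure.restrict_eq_zero]
        exact measure_mono_null (fun x hx => hx.1) (hneg p)
      rw [hm1d, hl1d, h2 m, h2 l, add_zero, add_zero, ← hm1d, ← hl1d] at h1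
      exact h1
    -- inversion of the density
    have hinv : ∀ p : Measure ℝ, (((p.restrict (Ioi 0)).withDensity d).restrict (Ioc 0 a)).withDensity
        (fun u => (d u)⁻¹) = p.restrict (Ioc 0 a) := by
      intro p
      rw [restrict_withDensity measurableSet_Ioc, Measure.restrict_restrict measurableSet_Ioc]
      have h1 : Ioc 0 a ∩ Ioi 0 = Ioc 0 a := by
        rw [inter_eq_left]
        exact fun x hx => hx.1
      rw [h1]
      apply withDensity_inv_same hdm
      · rw [ae_restrict_iff' measurableSet_Ioc]
        refine Eventually.of_forall fun u hu => ?_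
        have h2 := hhalf u hu
        rw [← hbe] at h2
        show ENNReal.ofReal (bl χe u) ≠ 0
        rw [Ne, ENNReal.ofReal_eq_zero, not_le]
        linarith
      · exact Eventually.of_forall fun u => ENNReal.ofReal_ne_top
    rw [← hinv m, ← hinv l, ← hm1d, ← hl1d, heq]
  -- exhaustion
  have h1 : Ioi (0 : ℝ) = ⋃ n : ℕ, Ioc 0 ((n : ℝ) + 1) := by
    ext x
    simp only [mem_Ioi, mem_iUnion, mem_Ioc]
    constructor
    · intro hx
      obtain ⟨n, hn⟩ := exists_nat_ge x
      exact ⟨n, hx, by linarith⟩
    · rintro ⟨n, hn, -⟩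
      exact hn
  rw [h1, Measure.restrict_iUnion_congr]
  intro n
  exact key _ (by positivity)

/-- **the rigidity theorem** -/
theorem limit_eq {μ : Measure ℝ} {w : ℝ} (h : LimData μ w)
    (hup : ∀ b r, TF b r → (∀ α, 0 ≤ r α) → (∀ α, |α| ≤ 1 / 3 → r α = 0) →
      2 * ∫ u, bl r u ∂μ ≤ MM r) :
    μ.restrict (Ioi 0) = lam.restrict (Ioi 0) := by
  have := h.lf
  obtain ⟨-, h1, h2⟩ := up_rigid h hup
  refine uniq μ lam h.int lam_int fun b r hr => ?_
  have h3 := h2 b r hr
  rw [split_zero μ h.neg (h.int _ _ hr)] at h3
  unfold MM at h3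
  have h4 : 2 * (μ.real {0} * bl r 0) = bl r 0 := by
    rw [← mul_assoc, h1, one_mul]
  linarith

end Pool.Agent.E8helper29.FF
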